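import Pool.Agent.R688.LOC.Fin

/-!
# Residue-field generation does not imply weakly noetherian spectrum (MP_e7c909_al, Q1)

The ring of infinitely many formal lines through a point is in the localizing subcategory generated
by its residue fields, but its spectrum is not weakly noetherian.
-/

set_option autoImplicit false

open CategoryTheory Limits Pool.Agent.R688.LOC

universe w

namespace Pool.Agent.Results.MP_e7c909_al.InfinitelyManyLines

/-- `X ∈ Loc⟨S⟩`: the object `X` of `D(R)` belongs to every localizing subcategory containing `S` -/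
def InLoc {R : Type} [CommRing R] [HasDerivedCategory.{w} (ModuleCat.{0} R)]
    (S : Set (DerivedCategory (ModuleCat.{0} R))) (X : DerivedCategory (ModuleCat.{0} R)) : Prop :=
  ∀ P : ObjectProperty (DerivedCategory (ModuleCat.{0} R)), IsLocalizing P →
    (∀ Y ∈ S, P Y) → P X

/-- condition (∗): `R ∈ Loc⟨κ(𝔭) | 𝔭 ∈ Spec R⟩` in `D(R)` -/
def GeneratedByResidueFields (R : Type) [CommRing R] [HasDerivedCategory.{w} (ModuleCat.{0} R)] :
    Prop :=
  InLoc (Set.range fun 𝔭 : PrimeSpectrum R => sgl (R := R) 𝔭.asIdeal.ResidueField)
    (sgl (R := R) R)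

/-- For every field `k`, the ring `lines k` of infinitely many formal lines through a point is
generated by its residue fields, but its spectrum is not weakly noetherian. -/
theorem result (k : Type) [Field k] :
    (∀ [HasDerivedCategory.{w} (ModuleCat.{0} (lines k))],
      GeneratedByResidueFields (lines k)) ∧
    ¬ IsWeaklyNoetherian (PrimeSpectrum (lines k)) :=
  ⟨fun P hP h => prop_ring hP (fun 𝔭 => h _ ⟨𝔭, rfl⟩), not_weaklyNoetherian⟩

end Pool.Agent.Results.MP_e7c909_al.InfinitelyManyLines
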